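import Pool.Agent.Helper69.LW.Basic

/-!
# MP_687a20_mp : module RE (smoothing of the even reflection)
-/

open MeasureTheory Set Filter Topology
open scoped ContDiff

namespace LeakyWire

variable {f u w : ℝ × ℝ → ℝ}

namespace RE

/-- the smoothed reflection -/
noncomputable def Ph (η : ℝ) (p : ℝ × ℝ) : ℝ × ℝ := (Real.sqrt (p.1 ^ 2 + η ^ 2), p.2)

theorem arg_pos {η : ℝ} (hη : 0 < η) (x : ℝ) : 0 < x ^ 2 + η ^ 2 := by positivity

theorem abs_le_sqrt' (η x : ℝ) : |x| ≤ Real.sqrt (x ^ 2 + η ^ 2) := by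
  apply Real.abs_le_sqrt
  nlinarith [sq_nonneg η]

theorem contDiff_Ph {η : ℝ} (hη : 0 < η) : ContDiff ℝ ∞ (Ph η) := by
  refine ContDiff.prodMk ?_ contDiff_snd
  refine ContDiff.sqrt ?_ (fun p => (arg_pos hη p.1).ne')
  exact (contDiff_fst.pow 2).add contDiff_const

theorem hasFDerivAt_Ph {η : ℝ} (hη : 0 < η) (p : ℝ × ℝ) :
    HasFDerivAt (Ph η) (((p.1 / Real.sqrt (p.1 ^ 2 + η ^ 2)) •
      ContinuousLinearMap.fst ℝ ℝ ℝ).prod (ContinuousLinearMap.snd ℝ ℝ ℝ)) p := by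
  refine HasFDerivAt.prodMk ?_ hasFDerivAt_snd
  have h1 : HasDerivAt (fun x : ℝ => Real.sqrt (x ^ 2 + η ^ 2))
      (p.1 / Real.sqrt (p.1 ^ 2 + η ^ 2)) p.1 := by
    have h2 : HasDerivAt (fun x : ℝ => x ^ 2 + η ^ 2) (2 * p.1) p.1 := by
      simpa using (hasDerivAt_pow 2 p.1).add_const (η ^ 2)
    convert h2.sqrt (arg_pos hη p.1).ne' using 1
    field_simp
  have h3 : HasFDerivAt (fun q : ℝ × ℝ => q.1) (ContinuousLinearMap.fst ℝ ℝ ℝ) p :=
    hasFDerivAt_fst
  exact h1.comp_hasFDerivAt p h3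

theorem test_comp (hf : Test f) {η : ℝ} (hη : 0 < η) : Test (fun p => f (Ph η p)) := by
  obtain ⟨L, hL0, hL⟩ := hf.box
  refine ⟨hf.1.comp (contDiff_Ph hη), ?_⟩
  refine HasCompactSupport.intro (K := Icc (-L) L ×ˢ Icc (-L) L)
    (isCompact_Icc.prod isCompact_Icc) (fun p hp => ?_)
  apply hL
  rw [mem_prod, mem_Icc, mem_Icc, ← abs_le, ← abs_le, not_and_or, not_le, not_le] at hp
  rcases hp with h | h
  · left
    change L < |Real.sqrt (p.1 ^ 2 + η ^ 2)|
    rw [abs_of_nonneg (Real.sqrt_nonneg _)]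
    exact h.trans_le (abs_le_sqrt' η p.1)
  · right
    exact h

theorem d1_comp (hf : Test f) {η : ℝ} (hη : 0 < η) (p : ℝ × ℝ) :
    d1 (fun p => f (Ph η p)) p =
      p.1 / Real.sqrt (p.1 ^ 2 + η ^ 2) * d1 f (Ph η p) := by
  have h1 : HasFDerivAt (fun p => f (Ph η p)) _ p :=
    (hf.diff (Ph η p)).hasFDerivAt.comp p (hasFDerivAt_Ph hη p)
  unfold d1
  rw [h1.fderiv]
  have h2 : ((p.1 / Real.sqrt (p.1 ^ 2 + η ^ 2), (0 : ℝ)) : ℝ × ℝ) =
      (p.1 / Real.sqrt (p.1 ^ 2 + η ^ 2)) • ((1 : ℝ), (0 : ℝ)) := by simp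
  simp only [ContinuousLinearMap.comp_apply, ContinuousLinearMap.prod_apply,
    smul_apply, ContinuousLinearMap.coe_fst', ContinuousLinearMap.coe_snd',
    smul_eq_mul, mul_one]
  rw [h2, map_smul, smul_eq_mul]

theorem d2_comp (hf : Test f) {η : ℝ} (hη : 0 < η) (p : ℝ × ℝ) :
    d2 (fun p => f (Ph η p)) p = d2 f (Ph η p) := by
  have h1 : HasFDerivAt (fun p => f (Ph η p)) _ p :=
    (hf.diff (Ph η p)).hasFDerivAt.comp p (hasFDerivAt_Ph hη p)
  unfold d2
  rw [h1.fderiv]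
  simp only [ContinuousLinearMap.comp_apply, ContinuousLinearMap.prod_apply,
    smul_apply, ContinuousLinearMap.coe_fst', ContinuousLinearMap.coe_snd',
    smul_eq_mul, mul_zero]

/-- integral of an even reflection -/
theorem even_int {F : ℝ × ℝ → ℝ} (hF : Nice F) :
    ∫ p : ℝ × ℝ, F (|p.1|, p.2) = 2 * ∫ p in hp, F p := by
  have hG : Nice (fun p : ℝ × ℝ => F (|p.1|, p.2)) := by
    obtain ⟨R, L, hR, hL, h⟩ := hF.bdd
    refine ⟨hF.meas.comp ((continuous_abs.measurable.comp measurable_fst).prodMk measurable_snd),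
      R, L, hR, hL, fun p => ⟨(h _).1, fun hp => (h _).2 ?_⟩⟩
    simpa using hp
  have h1 : ∫ p : ℝ × ℝ, F (|p.1|, p.2) = ∫ s, ∫ t, F (|s|, t) :=
    integral_prod _ hG.integrable
  rw [h1, hF.fubini]
  exact integral_comp_abs (f := fun s => ∫ t, F (s, t))

theorem tendsto_sqrt (x : ℝ) {η : ℕ → ℝ} (hη : Tendsto η atTop (𝓝 0)) :
    Tendsto (fun n => Real.sqrt (x ^ 2 + η n ^ 2)) atTop (𝓝 |x|) := by
  have h1 : Tendsto (fun n => x ^ 2 + η n ^ 2) atTop (𝓝 (x ^ 2 + 0 ^ 2)) :=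
    tendsto_const_nhds.add (hη.pow 2)
  have h2 := (Real.continuous_sqrt.tendsto _).comp h1
  simpa [Real.sqrt_sq_eq_abs, Function.comp_def] using h2

theorem tendsto_Ph (p : ℝ × ℝ) {η : ℕ → ℝ} (hη : Tendsto η atTop (𝓝 0)) :
    Tendsto (fun n => Ph (η n) p) atTop (𝓝 (|p.1|, p.2)) :=
  (tendsto_sqrt p.1 hη).prodMk_nhds tendsto_const_nhds

/-- dominated convergence in a box -/
theorem tendsto_box {F : ℕ → ℝ × ℝ → ℝ} {G : ℝ × ℝ → ℝ} (L B : ℝ)
    (hm : ∀ n, AEStronglyMeasurable (F n) volume)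
    (hB : ∀ n p, |F n p| ≤ B) (hL : ∀ n p, (L < |p.1| ∨ L < |p.2|) → F n p = 0)
    (hlim : ∀ᵐ p : ℝ × ℝ, Tendsto (fun n => F n p) atTop (𝓝 (G p))) :
    Tendsto (fun n => ∫ p, F n p) atTop (𝓝 (∫ p, G p)) := by
  refine tendsto_integral_of_dominated_convergence
    ((Icc (-L) L ×ˢ Icc (-L) L).indicator fun _ => B) hm ?_ ?_ hlim
  · rw [integrable_indicator_iff (measurableSet_Icc.prod measurableSet_Icc)]
    refine integrableOn_const ?_
    rw [Measure.volume_eq_prod, Measure.prod_prod]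
    exact (ENNReal.mul_lt_top (by simp) (by simp)).ne
  · intro n
    refine Eventually.of_forall fun p => ?_
    by_cases hp : p ∈ Icc (-L) L ×ˢ Icc (-L) L
    · rw [indicator_of_mem hp, Real.norm_eq_abs]
      exact hB n p
    · rw [indicator_of_notMem hp, hL n p, norm_zero]
      rw [mem_prod, mem_Icc, mem_Icc, ← abs_le, ← abs_le, not_and_or, not_le, not_le] at hp
      exact hp

end RE

open RE in
/-- Module RE. -/
theorem reflect (hf : Test f) (θ : ℝ) (hθ : 0 < Real.cos (θ / 2)) {δ : ℝ} (hδ : 0 < δ) :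
    ∃ h, Test h ∧ |form 1 θ h - 2 * hform θ f| ≤ δ ∧ |mass h - 2 * N f| ≤ δ := by
  obtain ⟨L, hL0, hL⟩ := hf.box
  obtain ⟨R, hR0, hR⟩ := hf.bdd
  obtain ⟨R1, hR10, hR1⟩ := hf.test_d1.bdd
  obtain ⟨R2, hR20, hR2⟩ := hf.test_d2.bdd
  obtain ⟨L1, hL10, hL1⟩ := hf.test_d1.box
  obtain ⟨L2, hL20, hL2⟩ := hf.test_d2.box
  set η : ℕ → ℝ := fun n => 1 / ((n : ℝ) + 1) with hηdef
  have hη0 : ∀ n, 0 < η n := fun n => by positivity
  have hη : Tendsto η atTop (𝓝 0) := tendsto_one_div_add_atTop_nhds_zero_nat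
  set h : ℕ → ℝ × ℝ → ℝ := fun n p => f (Ph (η n) p) with hh
  have hT : ∀ n, Test (h n) := fun n => test_comp hf (hη0 n)
  have hfst : ∀ (n : ℕ) (K : ℝ) (p : ℝ × ℝ), (K < |p.1| ∨ K < |p.2|) →
      (K < |(Ph (η n) p).1| ∨ K < |(Ph (η n) p).2|) := by
    intro n K p hp
    rcases hp with hp | hp
    · left
      change K < |Real.sqrt (p.1 ^ 2 + η n ^ 2)|
      rw [abs_of_nonneg (Real.sqrt_nonneg _)]
      exact hp.trans_le (abs_le_sqrt' (η n) p.1)
    · right
      exact hp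
  -- mass
  have hmass : Tendsto (fun n => mass (h n)) atTop (𝓝 (2 * N f)) := by
    have e1 : 2 * N f = ∫ p : ℝ × ℝ, f (|p.1|, p.2) ^ 2 := by
      rw [N, ← even_int hf.nice.sq]
    rw [e1]
    refine tendsto_box L (R ^ 2) (fun n => ((hT n).cont.pow 2).aestronglyMeasurable) ?_ ?_ ?_
    · intro n p
      rw [abs_pow]
      exact pow_le_pow_left₀ (abs_nonneg _) (hR _) 2
    · intro n p hp
      change f (Ph (η n) p) ^ 2 = 0
      rw [hL _ (hfst n L p hp)]
      ring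
    · refine Eventually.of_forall fun p => ?_
      exact ((hf.cont.tendsto _).comp (tendsto_Ph p hη)).pow 2
  -- gradient
  have hgrad : Tendsto (fun n => ∫ p, (d1 (h n) p ^ 2 + d2 (h n) p ^ 2)) atTop
      (𝓝 (2 * ∫ p in hp, (d1 f p ^ 2 + d2 f p ^ 2))) := by
    have e1 := even_int (hf.test_d1.nice.sq.add hf.test_d2.nice.sq)
    rw [← e1]
    refine tendsto_box (max L1 L2) (R1 ^ 2 + R2 ^ 2)
      (fun n => (((hT n).test_d1.cont.pow 2).add
        ((hT n).test_d2.cont.pow 2)).aestronglyMeasurable) ?_ ?_ ?_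
    · intro n p
      have h1 : |d1 (h n) p| ≤ R1 := by
        change |d1 (fun p => f (Ph (η n) p)) p| ≤ R1
        rw [d1_comp hf (hη0 n), abs_mul, abs_div, abs_of_nonneg (Real.sqrt_nonneg _)]
        have h2 : |p.1| / Real.sqrt (p.1 ^ 2 + η n ^ 2) ≤ 1 := by
          apply div_le_one_of_le₀ (abs_le_sqrt' _ _) (Real.sqrt_nonneg _)
        calc |p.1| / Real.sqrt (p.1 ^ 2 + η n ^ 2) * |d1 f (Ph (η n) p)|
            ≤ 1 * R1 := mul_le_mul h2 (hR1 _) (abs_nonneg _) zero_le_one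
          _ = R1 := one_mul _
      have h3 : |d2 (h n) p| ≤ R2 := by
        change |d2 (fun p => f (Ph (η n) p)) p| ≤ R2
        rw [d2_comp hf (hη0 n)]
        exact hR2 _
      rw [abs_of_nonneg (by positivity)]
      have h4 : d1 (h n) p ^ 2 ≤ R1 ^ 2 := by
        rw [← sq_abs]; exact pow_le_pow_left₀ (abs_nonneg _) h1 2
      have h5 : d2 (h n) p ^ 2 ≤ R2 ^ 2 := by
        rw [← sq_abs]; exact pow_le_pow_left₀ (abs_nonneg _) h3 2
      linarith
    · intro n p hp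
      have ha : L1 < |p.1| ∨ L1 < |p.2| := by
        rcases hp with hp | hp
        · exact Or.inl ((le_max_left _ _).trans_lt hp)
        · exact Or.inr ((le_max_left _ _).trans_lt hp)
      have hb : L2 < |p.1| ∨ L2 < |p.2| := by
        rcases hp with hp | hp
        · exact Or.inl ((le_max_right _ _).trans_lt hp)
        · exact Or.inr ((le_max_right _ _).trans_lt hp)
      have h1 : d1 (h n) p = 0 := by
        change d1 (fun p => f (Ph (η n) p)) p = 0
        rw [d1_comp hf (hη0 n), hL1 _ (hfst n L1 p ha), mul_zero]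
      have h2 : d2 (h n) p = 0 := by
        change d2 (fun p => f (Ph (η n) p)) p = 0
        rw [d2_comp hf (hη0 n), hL2 _ (hfst n L2 p hb)]
      change d1 (h n) p ^ 2 + d2 (h n) p ^ 2 = 0
      rw [h1, h2]
      ring
    · have hnull : ∀ᵐ p : ℝ × ℝ, p.1 ≠ 0 := by
        have h0 : volume {x : ℝ | ¬ x ≠ 0} = 0 := by simp
        have h1 : ∀ᵐ x : ℝ, x ≠ 0 := h0
        exact Measure.quasiMeasurePreserving_fst.ae h1
      filter_upwards [hnull] with p hp
      have hlim1 : Tendsto (fun n => p.1 / Real.sqrt (p.1 ^ 2 + η n ^ 2) * d1 f (Ph (η n) p))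
          atTop (𝓝 (p.1 / |p.1| * d1 f (|p.1|, p.2))) :=
        (tendsto_const_nhds.div (tendsto_sqrt p.1 hη) (abs_pos.2 hp).ne').mul
          ((hf.test_d1.cont.tendsto _).comp (tendsto_Ph p hη))
      have hlim2 : Tendsto (fun n => d2 f (Ph (η n) p)) atTop (𝓝 (d2 f (|p.1|, p.2))) :=
        (hf.test_d2.cont.tendsto _).comp (tendsto_Ph p hη)
      have h3 := (hlim1.pow 2).add (hlim2.pow 2)
      have h4 : (p.1 / |p.1| * d1 f (|p.1|, p.2)) ^ 2 = d1 f (|p.1|, p.2) ^ 2 := by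
        rw [mul_pow, div_pow, sq_abs, div_self (pow_ne_zero 2 hp), one_mul]
      rw [h4] at h3
      refine h3.congr fun n => ?_
      change _ = d1 (fun p => f (Ph (η n) p)) p ^ 2 + d2 (fun p => f (Ph (η n) p)) p ^ 2
      rw [d1_comp hf (hη0 n), d2_comp hf (hη0 n)]
  -- line integrals
  set c := Real.cos (θ / 2) with hc
  set σ := Real.sin (θ / 2) with hσ
  have hline : Tendsto (fun n => ∫ s in Ioi (0 : ℝ), h n (s * c, s * σ) ^ 2) atTop
      (𝓝 (∫ s in Ioi (0 : ℝ), f (s * c, s * σ) ^ 2)) := by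
    refine tendsto_integral_of_dominated_convergence
      ((Iic (L / c)).indicator fun _ => R ^ 2) (fun n => ?_) ?_ ?_ ?_
    · refine Continuous.aestronglyMeasurable ?_
      exact ((hT n).cont.comp ((continuous_id.mul continuous_const).prodMk
        (continuous_id.mul continuous_const))).pow 2
    · rw [integrable_indicator_iff measurableSet_Iic]
      refine integrableOn_const ?_
      rw [Measure.restrict_apply measurableSet_Iic, inter_comm, Ioi_inter_Iic]
      simp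
    · intro n
      refine (ae_restrict_mem measurableSet_Ioi).mono fun s hs => ?_
      have hs0 : 0 < s := hs
      by_cases hsL : s ∈ Iic (L / c)
      · rw [indicator_of_mem hsL, Real.norm_eq_abs, abs_pow]
        exact pow_le_pow_left₀ (abs_nonneg _) (hR _) 2
      · rw [indicator_of_notMem hsL]
        have h1 : L < s * c := by
          rw [mem_Iic, not_le, div_lt_iff₀ hθ] at hsL
          exact hsL
        have h2 : h n (s * c, s * σ) = 0 := by
          apply hL _ (hfst n L (s * c, s * σ) (Or.inl _))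
          change L < |s * c|
          rw [abs_of_pos (mul_pos hs0 hθ)]
          exact h1
        rw [h2]
        simp
    · refine (ae_restrict_mem measurableSet_Ioi).mono fun s hs => ?_
      have hs0 : 0 < s := hs
      have h1 := ((hf.cont.tendsto _).comp (tendsto_Ph (s * c, s * σ) hη)).pow 2
      have h2 : |s * c| = s * c := abs_of_pos (mul_pos hs0 hθ)
      simp only [h2] at h1
      exact h1
  have hform : Tendsto (fun n => form 1 θ (h n)) atTop (𝓝 (2 * hform θ f)) := by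
    have e1 : ∀ n, form 1 θ (h n) = (∫ p, (d1 (h n) p ^ 2 + d2 (h n) p ^ 2)) -
        2 * ∫ s in Ioi (0 : ℝ), h n (s * c, s * σ) ^ 2 := by
      intro n
      have e2 : ∀ s, h n (-(s * c), s * σ) = h n (s * c, s * σ) := by
        intro s
        simp only [hh, Ph, neg_sq]
      rw [form, ← hc, ← hσ]
      simp only [e2]
      ring
    have e3 : 2 * hform θ f = 2 * (∫ p in hp, (d1 f p ^ 2 + d2 f p ^ 2)) -
        2 * ∫ s in Ioi (0 : ℝ), f (s * c, s * σ) ^ 2 := by
      rw [LeakyWire.hform, ← hc, ← hσ]; ring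
    rw [e3]
    simp only [e1]
    exact hgrad.sub (hline.const_mul 2)
  obtain ⟨n, hn1, hn2⟩ := ((Metric.tendsto_nhds.1 hform δ hδ).and
    (Metric.tendsto_nhds.1 hmass δ hδ)).exists
  rw [Real.dist_eq] at hn1 hn2
  exact ⟨h n, hT n, hn1.le, hn2.le⟩

end LeakyWire
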